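import Mathlib

/-!
# The modular quiddity equation has only finitely many irreducible solutions

Let `N ≥ 2`. To a tuple `(a_1, …, a_n)` over `ℤ/N` attach the vectors `v_0 = (0, 1)`, `v_1 = (1, 0)`,
`v_{k+1} = a_k v_k - v_{k-1}`. The tuple is reducible as soon as it is a solution of size at least
`5` and `det (v_i, v_j) = ± 1` for some `i, j` that are not neighbours on the cycle. If
`v_i = ± v_j` for two different indices `i, j < n`, then `det (v_i, v_{j+1}) = ± 1` and
`det (v_i, v_{j-1}) = ± 1`, so the tuple is reducible. Hence the vectors `v_0, …, v_{n-1}` of an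
irreducible solution of size `n ≥ 5` are pairwise different modulo `± 1`, and the number of
unimodular vectors modulo `± 1` bounds `n`. The proof works for every finite commutative ring.
-/

set_option autoImplicit false

namespace Pool.Agent.Results.MP_762e7e_co.FinitelyManyIrreducible

open Matrix

variable {R : Type} [CommRing R]

/-- The matrix `!![a, -1; 1, 0]`. -/
def A (a : R) : Matrix (Fin 2) (Fin 2) R := !![a, -1; 1, 0]

/-- `M_n (a_1, …, a_n) = A (a_n) * ⋯ * A (a_1)` -/
def M : List R → Matrix (Fin 2) (Fin 2) R
  | [] => 1
  | a :: l => M l * A a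

/-- The tuple `l` is a solution: `M_n (a_1, …, a_n) = ± Id`. -/
def IsSolution (l : List R) : Prop := M l = 1 ∨ M l = -1

/-- The sum of the tuples `(a, x_1, …, x_r, a')` and `(b, y_1, …, y_s, b')`, namely
`(a + b', x_1, …, x_r, a' + b, y_1, …, y_s)`. -/
def sum (a : R) (x : List R) (a' b : R) (y : List R) (b' : R) : List R :=
  (a + b') :: (x ++ (a' + b) :: y)

/-- Two tuples are equivalent if the second one is a cyclic rotation of the first one or of its
reversal. -/
def Equivalent (c d : List R) : Prop := c.IsRotated d ∨ c.reverse.IsRotated d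

/-- A solution is reducible if it is equivalent to the sum of two solutions of size at least `3`. -/
def IsReducible (c : List R) : Prop :=
  ∃ (a : R) (x : List R) (a' b : R) (y : List R) (b' : R), 1 ≤ x.length ∧ 1 ≤ y.length ∧
    IsSolution (a :: (x ++ [a'])) ∧ IsSolution (b :: (y ++ [b'])) ∧
    Equivalent c (sum a x a' b y b')

/-- Irreducible solutions: solutions of size at least `3` that are not reducible. -/
def IsIrreducible (c : List R) : Prop := 3 ≤ c.length ∧ IsSolution c ∧ ¬ IsReducible c

/-! ### Matrix computations -/

theorem M_append (l l' : List R) : M (l ++ l') = M l' * M l := by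
  induction l with
  | nil => simp [M]
  | cons a l ih => simp [M, ih, Matrix.mul_assoc]

theorem M_cons (a : R) (l : List R) : M (a :: l) = M l * A a := rfl

theorem M_single (a : R) : M [a] = A a := by simp [M]

/-- the inverse of `A a` -/
def B (a : R) : Matrix (Fin 2) (Fin 2) R := !![0, 1; -1, a]

theorem A_mul_B (a : R) : A a * B a = 1 := by
  ext i j; fin_cases i <;> fin_cases j <;> simp [A, B]

theorem B_mul_A (a : R) : B a * A a = 1 := by
  ext i j; fin_cases i <;> fin_cases j <;> simp [A, B]

/-- a rotation of a solution is a solution -/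
theorem solution_append_comm {l l' : List R} (h : IsSolution (l ++ l')) :
    IsSolution (l' ++ l) := by
  have key : ∀ l : List R, ∀ l' : List R, ∀ e : R, M (l ++ l') = e • (1 : Matrix _ _ R) →
      M (l' ++ l) = e • (1 : Matrix _ _ R) := by
    intro l
    induction l with
    | nil => intro l' e h; simpa using h
    | cons a l ih =>
      intro l' e h
      have h1 : M (l ++ l') * A a = e • (1 : Matrix _ _ R) := h
      have h2 : M (l ++ l') = e • B a := by
        calc M (l ++ l') = (M (l ++ l') * A a) * B a := by
              rw [Matrix.mul_assoc, A_mul_B, Matrix.mul_one]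
          _ = e • B a := by rw [h1, Matrix.smul_mul, Matrix.one_mul]
      have h3 : M (l ++ (l' ++ [a])) = e • (1 : Matrix _ _ R) := by
        rw [← List.append_assoc, M_append, M_single, h2, Matrix.mul_smul, A_mul_B]
      have h4 := ih (l' ++ [a]) e h3
      simpa using h4
  rcases h with h | h
  · left
    simpa using key l l' 1 (by simpa using h)
  · right
    simpa using key l l' (-1) (by simpa using h)

theorem det_A (a : R) : (A a).det = 1 := by simp [A, Matrix.det_fin_two]

theorem det_M (l : List R) : (M l).det = 1 := by
  induction l with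
  | nil => simp [M]
  | cons a l ih => rw [M_cons, Matrix.det_mul, ih, det_A, one_mul]

/-- completing a block with continuant `± 1` to a solution -/
theorem complete {l : List R} {e : R} (he : e = 1 ∨ e = -1) (h : M l 0 0 = e) :
    A (e * M l 1 0) * M l * A (-(e * M l 0 1)) = (-e) • (1 : Matrix (Fin 2) (Fin 2) R) := by
  have hd := det_M l
  rw [Matrix.det_fin_two, h] at hd
  have he2 : e * e = 1 := by rcases he with rfl | rfl <;> simp
  have hM : M l = !![e, M l 0 1; M l 1 0, M l 1 1] := by
    rw [← h]; exact Matrix.eta_fin_two _
  generalize M l 0 1 = q at *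
  generalize M l 1 0 = r at *
  generalize M l 1 1 = t at *
  rw [hM, A, A, Matrix.mul_fin_two, Matrix.mul_fin_two]
  ext i j
  fin_cases i <;> fin_cases j
  · simp
    linear_combination (-e) * hd + (-(q * r * e) + t) * he2
  · simp
    linear_combination (-r) * he2
  · simp
    linear_combination (-q) * he2
  · simp

theorem A_add_right (x y : R) : A (x + y) = A x * !![1, 0; -y, 1] := by
  rw [A, A, Matrix.mul_fin_two]
  ext i j
  fin_cases i <;> fin_cases j <;> simp

theorem A_add_left (x y : R) : A (x + y) = !![1, y; 0, 1] * A x := by
  rw [A, A, Matrix.mul_fin_two]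
  ext i j
  fin_cases i <;> fin_cases j <;> simp

theorem A_zero_sq : A (0 : R) * A 0 = -1 := by
  rw [A, Matrix.mul_fin_two]
  ext i j
  fin_cases i <;> fin_cases j <;> simp

/-- `IsSolution` in terms of a sign -/
theorem solution_iff (l : List R) :
    IsSolution l ↔ ∃ e : R, (e = 1 ∨ e = -1) ∧ M l = e • (1 : Matrix (Fin 2) (Fin 2) R) := by
  constructor
  · rintro (h | h)
    · exact ⟨1, Or.inl rfl, by simpa using h⟩
    · exact ⟨-1, Or.inr rfl, by simpa using h⟩
  · rintro ⟨e, rfl | rfl, h⟩
    · left; simpa using h
    · right; simpa using h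

/-- a solution that contains a block `y` with continuant `± 1` is a sum of two solutions -/
theorem split {s t : R} {x y : List R} (h : IsSolution (s :: (x ++ t :: y))) {e : R}
    (he : e = 1 ∨ e = -1) (hy : M y 0 0 = e) :
    ∃ a a' b b' : R, IsSolution (a :: (x ++ [a'])) ∧ IsSolution (b :: (y ++ [b'])) ∧
      s :: (x ++ t :: y) = sum a x a' b y b' := by
  have he2 : e * e = 1 := by rcases he with rfl | rfl <;> simp
  obtain ⟨δ, hδ, hs⟩ := (solution_iff _).1 h
  set b : R := -(e * M y 0 1) with hb
  set b' : R := e * M y 1 0 with hb'
  have hc : A b' * M y * A b = (-e) • (1 : Matrix (Fin 2) (Fin 2) R) := complete he hy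
  refine ⟨s - b', t - b, b, b', ?_, ?_, ?_⟩
  · have h1 : M y * A t * M x * A s = δ • (1 : Matrix (Fin 2) (Fin 2) R) := by
      rw [← hs, M_cons, M_append, M_cons]
    have ht : A t = A b * !![1, 0; -(t - b), 1] := by
      rw [← A_add_right]; congr 1; ring
    have hs' : A s = !![1, s - b'; 0, 1] * A b' := by
      rw [← A_add_left]; congr 1; ring
    set X : Matrix (Fin 2) (Fin 2) R := !![1, 0; -(t - b), 1] * M x * !![1, s - b'; 0, 1] with hX
    have h2 : (A b' * M y * A b) * X = δ • (1 : Matrix (Fin 2) (Fin 2) R) := by
      have h3 : M y * A b * X * A b' = δ • (1 : Matrix (Fin 2) (Fin 2) R) := by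
        rw [← h1, ht, hs', hX]
        simp only [Matrix.mul_assoc]
      have h4 : M y * A b * X = δ • B b' := by
        calc M y * A b * X = M y * A b * X * A b' * B b' := by
              rw [Matrix.mul_assoc _ (A b') (B b'), A_mul_B, Matrix.mul_one]
          _ = δ • B b' := by rw [h3, Matrix.smul_mul, Matrix.one_mul]
      calc (A b' * M y * A b) * X = A b' * (M y * A b * X) := by simp only [Matrix.mul_assoc]
        _ = δ • (1 : Matrix (Fin 2) (Fin 2) R) := by rw [h4, Matrix.mul_smul, A_mul_B]
    have h5 : X = (-(e * δ)) • (1 : Matrix (Fin 2) (Fin 2) R) := by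
      rw [hc, Matrix.smul_mul, Matrix.one_mul] at h2
      calc X = (-e) • ((-e) • X) := by
            rw [smul_smul, neg_mul_neg, he2, one_smul]
        _ = (-(e * δ)) • (1 : Matrix (Fin 2) (Fin 2) R) := by
            rw [h2, smul_smul, neg_mul]
    rw [solution_iff]
    refine ⟨e * δ, ?_, ?_⟩
    · rcases he with rfl | rfl <;> rcases hδ with rfl | rfl <;> simp
    · rw [M_cons, M_append, M_single]
      have ht0 : A (t - b) = A 0 * !![1, 0; -(t - b), 1] := by
        rw [← A_add_right]; congr 1; ring
      have hs0 : A (s - b') = !![1, s - b'; 0, 1] * A 0 := by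
        rw [← A_add_left]; congr 1; ring
      calc A (t - b) * M x * A (s - b') = A 0 * X * A 0 := by
            rw [ht0, hs0, hX]; simp only [Matrix.mul_assoc]
        _ = (e * δ) • (1 : Matrix (Fin 2) (Fin 2) R) := by
            rw [h5, Matrix.mul_smul, Matrix.mul_one, Matrix.smul_mul, A_zero_sq, smul_neg,
              neg_smul, neg_neg]
  · rw [solution_iff]
    refine ⟨-e, ?_, ?_⟩
    · rcases he with rfl | rfl <;> simp
    · rw [M_cons, M_append, M_single]
      exact hc
  · simp [sum]

omit [CommRing R] in
/-- a list of length at least `3` has a first and a last member and something in between -/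
theorem exists_ends {l : List R} (h : 3 ≤ l.length) :
    ∃ (s : R) (x : List R) (t : R), l = s :: (x ++ [t]) ∧ 1 ≤ x.length := by
  match l, h with
  | s :: l', h =>
    have h0 : l' ≠ [] := by rintro rfl; simp at h
    refine ⟨s, l'.dropLast, l'.getLast h0, ?_, ?_⟩
    · rw [List.dropLast_append_getLast]
    · simp at h ⊢; omega

/-- a solution of size `n` is reducible if it contains a block of length between `1` and `n - 3`
whose continuant is `± 1` -/
theorem reducible_of_block {l₁ y l₂ : List R} (hc : IsSolution (l₁ ++ y ++ l₂))
    (h1 : 1 ≤ y.length) (h2 : y.length + 3 ≤ (l₁ ++ y ++ l₂).length)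
    (hy : M y 0 0 = 1 ∨ M y 0 0 = -1) : IsReducible (l₁ ++ y ++ l₂) := by
  have hlen : 3 ≤ (l₂ ++ l₁).length := by
    simp only [List.length_append] at h2 ⊢; omega
  obtain ⟨s, x, t, hl, hx⟩ := exists_ends hlen
  have hsol : IsSolution (l₂ ++ (l₁ ++ y)) := solution_append_comm hc
  have heq : l₂ ++ (l₁ ++ y) = s :: (x ++ t :: y) := by
    rw [← List.append_assoc, hl]; simp
  rw [heq] at hsol
  obtain ⟨a, a', b, b', ha, hb, hsum⟩ := split hsol hy rfl
  refine ⟨a, x, a', b, y, b', hx, h1, ha, hb, Or.inl ?_⟩
  rw [← hsum, ← heq]
  exact List.isRotated_append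

/-! ### The vectors attached to a tuple -/

/-- the vector number `k` -/
def vec (c : List R) (k : ℕ) : R × R := (M (c.take k) 1 0, M (c.take k) 1 1)

theorem coprime_vec (c : List R) (k : ℕ) : IsCoprime (vec c k).1 (vec c k).2 := by
  have h := det_M (c.take k)
  rw [Matrix.det_fin_two] at h
  refine ⟨-(M (c.take k) 0 1), M (c.take k) 0 0, ?_⟩
  simp only [vec]
  linear_combination h

theorem row_zero (c : List R) {k : ℕ} (hk : k < c.length) :
    (M (c.take k) 0 0, M (c.take k) 0 1) = vec c (k + 1) := by
  have h : M (c.take (k + 1)) = A (c.get ⟨k, hk⟩) * M (c.take k) := by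
    rw [List.take_add_one, M_append, List.getElem?_eq_getElem hk]
    simp [M]
  have h1 : M (c.take (k + 1)) 1 0 = M (c.take k) 0 0 := by
    rw [h, A, Matrix.mul_apply, Fin.sum_univ_two]
    simp
  have h2 : M (c.take (k + 1)) 1 1 = M (c.take k) 0 1 := by
    rw [h, A, Matrix.mul_apply, Fin.sum_univ_two]
    simp
  simp only [vec, h1, h2]

theorem block (c : List R) {i j : ℕ} (hij : i ≤ j) :
    M ((c.drop i).take (j - i)) 0 0 =
      M (c.take j) 0 0 * (vec c i).2 - M (c.take j) 0 1 * (vec c i).1 := by
  have h : M (c.take j) = M ((c.drop i).take (j - i)) * M (c.take i) := by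
    rw [← M_append]
    congr 1
    conv_lhs => rw [show j = i + (j - i) by omega]
    rw [List.take_add]
  have hd := det_M (c.take i)
  rw [Matrix.det_fin_two] at hd
  rw [h, vec]
  set Y := M ((c.drop i).take (j - i))
  set Z := M (c.take i)
  simp only [Matrix.mul_apply, Fin.sum_univ_two]
  linear_combination (-(Y 0 0)) * hd

omit [CommRing R] in
theorem decomp (c : List R) (i j : ℕ) (hij : i ≤ j) :
    c = c.take i ++ (c.drop i).take (j - i) ++ c.drop j := by
  conv_lhs => rw [← List.take_append_drop i c, ← List.take_append_drop (j - i) (c.drop i)]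
  rw [List.drop_drop, List.append_assoc]
  congr 3
  omega

/-- In an irreducible solution of size `n ≥ 5` the vectors with different indices less than `n` are
different modulo `± 1`. -/
theorem vec_ne {c : List R} (hc : IsIrreducible c) (h5 : 5 ≤ c.length) {i j : ℕ} (hij : i < j)
    (hj : j < c.length) {e : R} (he : e = 1 ∨ e = -1) :
    vec c i ≠ (e * (vec c j).1, e * (vec c j).2) := by
  intro heq
  have hi1 : (vec c i).1 = e * (vec c j).1 := by rw [heq]
  have hi2 : (vec c i).2 = e * (vec c j).2 := by rw [heq]
  have hd := det_M (c.take j)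
  rw [Matrix.det_fin_two] at hd
  rcases le_or_gt (j - i + 3) c.length with hcase | hcase
  · apply hc.2.2
    have hb : M ((c.drop i).take (j - i)) 0 0 = e := by
      rw [block c hij.le, hi1, hi2]
      simp only [vec]
      linear_combination e * hd
    have hlen : ((c.drop i).take (j - i)).length = j - i := by
      simp only [List.length_take, List.length_drop]; omega
    have hdec := decomp c i j hij.le
    rw [hdec]
    apply reducible_of_block
    · rw [← hdec]; exact hc.2.1
    · omega
    · rw [← hdec, hlen]; exact hcase
    · rw [hb]; exact he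
  · apply hc.2.2
    have hij2 : i ≤ j - 2 := by omega
    have hb : M ((c.drop i).take (j - 2 - i)) 0 0 = -e := by
      rw [block c hij2, hi1, hi2]
      have h1 := row_zero c (k := j - 2) (by omega)
      have h2 := row_zero c (k := j - 1) (by omega)
      rw [show j - 2 + 1 = j - 1 by omega] at h1
      rw [show j - 1 + 1 = j by omega] at h2
      have hd1 := det_M (c.take (j - 1))
      rw [Matrix.det_fin_two] at hd1
      have h1a : M (c.take (j - 2)) 0 0 = M (c.take (j - 1)) 1 0 := congrArg Prod.fst h1
      have h1b : M (c.take (j - 2)) 0 1 = M (c.take (j - 1)) 1 1 := congrArg Prod.snd h1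
      have h2a : M (c.take (j - 1)) 0 0 = (vec c j).1 := congrArg Prod.fst h2
      have h2b : M (c.take (j - 1)) 0 1 = (vec c j).2 := congrArg Prod.snd h2
      rw [h1a, h1b, ← h2a, ← h2b]
      linear_combination (-e) * hd1
    have hlen : ((c.drop i).take (j - 2 - i)).length = j - 2 - i := by
      simp only [List.length_take, List.length_drop]; omega
    have hdec := decomp c i (j - 2) hij2
    rw [hdec]
    apply reducible_of_block
    · rw [← hdec]; exact hc.2.1
    · omega
    · rw [← hdec, hlen]; omega
    · rw [hb]
      rcases he with rfl | rfl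
      · right; rfl
      · left; simp

/-- The size of an irreducible solution is at most `4` or at most half of the number of unimodular
vectors, for every finite commutative ring in which `2 ≠ 0`. -/
theorem size_le [Finite R] (h2 : (2 : R) ≠ 0) {c : List R} (hc : IsIrreducible c) :
    c.length ≤ 4 ∨ 2 * c.length ≤ Nat.card {v : R × R // IsCoprime v.1 v.2} := by
  rcases le_or_gt c.length 4 with h | h5
  · exact Or.inl h
  right
  let f : Fin c.length × Bool → {v : R × R // IsCoprime v.1 v.2} := fun p =>
    bif p.2 then ⟨vec c p.1, coprime_vec c p.1⟩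
    else ⟨(-(vec c p.1).1, -(vec c p.1).2), (coprime_vec c p.1).neg_neg⟩
  have hself : ∀ k : ℕ, vec c k ≠ (-(vec c k).1, -(vec c k).2) := by
    intro k hk
    apply h2
    obtain ⟨u, v, huv⟩ := coprime_vec c k
    have h1 : (vec c k).1 = -(vec c k).1 := congrArg Prod.fst hk
    have h3 : (vec c k).2 = -(vec c k).2 := congrArg Prod.snd hk
    linear_combination (-2 : R) * huv + u * h1 + v * h3
  have hne : ∀ i j : ℕ, i < c.length → j < c.length → i ≠ j → ∀ e : R, (e = 1 ∨ e = -1) →
      vec c i ≠ (e * (vec c j).1, e * (vec c j).2) := by
    intro i j hi hj hij e he heq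
    rcases lt_or_gt_of_ne hij with h | h
    · exact vec_ne hc h5 h hj he heq
    · refine vec_ne hc h5 h hi he ?_
      have he2 : e * e = 1 := by rcases he with rfl | rfl <;> simp
      have h1 : (vec c i).1 = e * (vec c j).1 := congrArg Prod.fst heq
      have h3 : (vec c i).2 = e * (vec c j).2 := congrArg Prod.snd heq
      ext
      · simp only
        rw [h1, ← mul_assoc, he2, one_mul]
      · simp only
        rw [h3, ← mul_assoc, he2, one_mul]
  have hinj : Function.Injective f := by
    rintro ⟨i, b⟩ ⟨j, b'⟩ h
    have hij : i = j := by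
      by_contra hij
      have hij' : (i : ℕ) ≠ j := fun hh => hij (Fin.ext hh)
      cases b <;> cases b'
      · have h1 := congrArg Subtype.val h
        simp only [f, cond_false, Prod.mk.injEq, neg_inj] at h1
        exact hne i j i.2 j.2 hij' 1 (Or.inl rfl) (Prod.ext (by simpa using h1.1)
          (by simpa using h1.2))
      · have h1 := congrArg Subtype.val h
        simp only [f, cond_false, cond_true] at h1
        refine hne i j i.2 j.2 hij' (-1) (Or.inr rfl) (Prod.ext ?_ ?_)
        · have := congrArg Prod.fst h1
          simp only at this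
          simp [← this]
        · have := congrArg Prod.snd h1
          simp only at this
          simp [← this]
      · have h1 := congrArg Subtype.val h
        simp only [f, cond_false, cond_true] at h1
        refine hne i j i.2 j.2 hij' (-1) (Or.inr rfl) (Prod.ext ?_ ?_)
        · have := congrArg Prod.fst h1
          simp only at this
          simp [this]
        · have := congrArg Prod.snd h1
          simp only at this
          simp [this]
      · have h1 := congrArg Subtype.val h
        simp only [f, cond_true] at h1
        exact hne i j i.2 j.2 hij' 1 (Or.inl rfl) (Prod.ext (by simp [h1]) (by simp [h1]))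
    subst hij
    cases b <;> cases b'
    · rfl
    · exfalso
      have h1 := congrArg Subtype.val h
      simp only [f, cond_false, cond_true] at h1
      exact hself i h1.symm
    · exfalso
      have h1 := congrArg Subtype.val h
      simp only [f, cond_false, cond_true] at h1
      exact hself i h1
    · rfl
  have hcard := Nat.card_le_card_of_injective f hinj
  simpa [Nat.card_prod, mul_comm] using hcard

/-- The size of an irreducible solution is at most `4` or at most the number of unimodular
vectors, for every finite commutative ring. -/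
theorem size_le' [Finite R] {c : List R} (hc : IsIrreducible c) :
    c.length ≤ 4 ∨ c.length ≤ Nat.card {v : R × R // IsCoprime v.1 v.2} := by
  rcases le_or_gt c.length 4 with h | h5
  · exact Or.inl h
  right
  let f : Fin c.length → {v : R × R // IsCoprime v.1 v.2} := fun p =>
    ⟨vec c p, coprime_vec c p⟩
  have hinj : Function.Injective f := by
    intro i j h
    by_contra hij
    have hij' : (i : ℕ) ≠ j := fun hh => hij (Fin.ext hh)
    have h1 : vec c i = vec c j := congrArg Subtype.val h
    rcases lt_or_gt_of_ne hij' with h3 | h3
    · exact vec_ne hc h5 h3 j.2 (Or.inl rfl) (by simpa using h1)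
    · exact vec_ne hc h5 h3 i.2 (Or.inl rfl) (by simpa using h1.symm)
  have hcard := Nat.card_le_card_of_injective f hinj
  simpa using hcard

/-- For every finite commutative ring there are only finitely many irreducible solutions. -/
theorem finite_ring [Finite R] : {c : List R | IsIrreducible c}.Finite := by
  refine (List.finite_length_le R (4 + Nat.card {v : R × R // IsCoprime v.1 v.2})).subset ?_
  intro c hc
  rcases size_le' hc with h | h
  · exact le_add_right h
  · exact le_add_left h

/-- **For every `N ≥ 2` the equation `(E_N)` has only finitely many irreducible solutions**, and the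
size of an irreducible solution is at most `4` or at most half of the number of unimodular
vectors of `(ℤ/N)²`. -/
theorem result (N : ℕ) (hN : 2 ≤ N) :
    {c : List (ZMod N) | IsIrreducible c}.Finite ∧
      ∀ c : List (ZMod N), IsIrreducible c →
        c.length ≤ 4 ∨ 2 * c.length ≤ Nat.card {v : ZMod N × ZMod N // IsCoprime v.1 v.2} := by
  have : NeZero N := ⟨by omega⟩
  refine ⟨finite_ring, fun c hc => ?_⟩
  rcases hN.eq_or_lt with rfl | h3
  · left
    rcases size_le' hc with h | h
    · exact h
    · refine h.trans ((Nat.card_le_card_of_injective (Subtype.val) Subtype.val_injective).trans ?_)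
      simp
  · apply size_le _ hc
    intro h
    have h2 : ((2 : ℕ) : ZMod N) = 0 := by exact_mod_cast h
    rw [ZMod.natCast_eq_zero_iff] at h2
    exact absurd (Nat.le_of_dvd (by norm_num) h2) (by omega)

end Pool.Agent.Results.MP_762e7e_co.FinitelyManyIrreducible
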